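import Pool.Agent.TH641.NW.Plane
import Pool.Agent.TH79.NW.Rot

/-! The first step, from the plane to the right triangles of real slope `K ^ 2 / 9` for slopes close to
`9 P - 1 + 1 / P`, with a bounded loss. -/

namespace Pool.Agent.TH641.NW

open Finset Pool.Agent.TH176.Nag Pool.Agent.TH603.Sur Pool.Agent.TH603.Cut Pool.Agent.TH79.NW

/-- the rounding error for at most `P` intervals -/
theorem NN_rot_le {P : ℕ} (hP : 2 ≤ P) {K δ : ℝ} (hK : K = 9 * P - 1 + 1 / P + δ) (hδ0 : 0 ≤ δ)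
    (hδ : δ * P ^ 2 ≤ 1) {x Y : ℝ} {h Q : ℕ} (hhQ : h ≤ Q) (hp : Q + 1 ≤ h + P) :
    |(NN x Y K h Q : ℝ) - Lam Y K h Q| ≤ 5 + ((P - (Q + 1 - h) : ℕ) : ℝ) := by
  rw [NN_sub_Lam hhQ]
  have hP2 : (2 : ℝ) ≤ P := by exact_mod_cast hP
  -- the first sum
  have hA : |∑ t ∈ range (Q + 1 - h), phi (x + Y + (K - 9) * h + (K - 9) * t)| ≤
      2 + ((P - (Q + 1 - h) : ℕ) : ℝ) / 2 := by
    have h1 := sum_phi (P := P) (A0 := 9 * P - 10) (by omega) hδ0 hδ (x + Y + (K - 9) * h)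
    have hc : ((9 * P - 10 : ℕ) : ℝ) + 1 / P + δ = K - 9 := by
      rw [Nat.cast_sub (by omega), hK]
      push_cast
      ring
    rw [hc] at h1
    have h2 := sum_phi_drop (fun t => x + Y + (K - 9) * h + (K - 9) * t) (Q + 1 - h) (P - (Q + 1 - h))
    rw [show Q + 1 - h + (P - (Q + 1 - h)) = P by omega] at h2
    linarith
  -- the second sum
  have hB : |∑ s ∈ Ioc h Q, phi (-(x + K * s))| ≤ 2 + ((P - (Q + 1 - h) : ℕ) : ℝ) / 2 + 1 / 2 := by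
    have h1 := sum_phi (P := P) (A0 := 9 * P - 1) (by omega) hδ0 hδ (-(x + K * (h + P - 1)))
    have hc : ((9 * P - 1 : ℕ) : ℝ) + 1 / P + δ = K := by
      rw [Nat.cast_sub (by omega), hK]
      push_cast
      ring
    rw [hc, ← sum_range_reflect] at h1
    have h2 : ∑ j ∈ range P, phi (-(x + K * (h + P - 1)) + K * ((P - 1 - j : ℕ) : ℝ)) =
        ∑ j ∈ range P, phi (-(x + K * (h + j : ℕ))) := by
      refine sum_congr rfl fun j hj => ?_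
      rw [mem_range] at hj
      congr 1
      rw [Nat.cast_sub (by omega), Nat.cast_sub (by omega)]
      push_cast
      ring
    rw [h2] at h1
    have h3 := sum_phi_drop (fun j => -(x + K * (h + j : ℕ))) (Q + 1 - h) (P - (Q + 1 - h))
    rw [show Q + 1 - h + (P - (Q + 1 - h)) = P by omega] at h3
    have h5 : ∑ s ∈ range (Q + 1 - h), phi (-(x + K * (h + s : ℕ))) =
        phi (-(x + K * h)) + ∑ s ∈ Ioc h Q, phi (-(x + K * s)) := by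
      have h6 := sum_Ico_eq_sum_range (fun s : ℕ => phi (-(x + K * (s : ℝ)))) h (Q + 1)
      rw [← h6, sum_eq_sum_Ico_succ_bot (by omega), Ico_succ]
    rw [h5] at h3
    have h6 := abs_phi (-(x + K * h))
    have h7 : |∑ s ∈ Ioc h Q, phi (-(x + K * s))| ≤
        |phi (-(x + K * h)) + ∑ s ∈ Ioc h Q, phi (-(x + K * s))| + |phi (-(x + K * h))| := by
      have h8 := abs_sub (phi (-(x + K * h)) + ∑ s ∈ Ioc h Q, phi (-(x + K * s))) (phi (-(x + K * h)))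
      rw [add_sub_cancel_left] at h8
      exact h8
    linarith
  have hC := abs_phi (-x)
  have h1 := abs_add_le (∑ t ∈ range (Q + 1 - h), phi (x + Y + (K - 9) * h + (K - 9) * t) +
      ∑ s ∈ Ioc h Q, phi (-(x + K * s))) (phi (-x))
  have h2 := abs_add_le (∑ t ∈ range (Q + 1 - h), phi (x + Y + (K - 9) * h + (K - 9) * t))
      (∑ s ∈ Ioc h Q, phi (-(x + K * s)))
  linarith

theorem K_bounds {P : ℕ} (hP : 2 ≤ P) {K δ : ℝ} (hK : K = 9 * P - 1 + 1 / P + δ) (hδ0 : 0 ≤ δ)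
    (hδ : δ * P ^ 2 ≤ 1) : 9 * (P : ℝ) - 1 < K ∧ K < 9 * P := by
  have hP2 : (2 : ℝ) ≤ P := by exact_mod_cast hP
  have h1 : 1 / (P : ℝ) ≤ 1 / 2 := one_div_le_one_div_of_le (by norm_num) hP2
  have h2 : 0 < 1 / (P : ℝ) := by positivity
  have h3 : δ ≤ 1 / 4 := by
    have : δ * 4 ≤ δ * P ^ 2 := mul_le_mul_of_nonneg_left (by nlinarith) hδ0
    linarith
  rw [hK]
  constructor <;> linarith

/-- lower bound of the rows with bounded error -/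
theorem row_low_rot {P : ℕ} (hP : 2 ≤ P) {K δ : ℝ} (hK : K = 9 * P - 1 + 1 / P + δ) (hδ0 : 0 ≤ δ)
    (hδ : δ * P ^ 2 ≤ 1) (x Y : ℝ) (hY : 0 ≤ Y) :
    ∃ B : Finset ℤ, (∀ c ∈ B, c ∈ U x Y K) ∧ ell Y K - 8 ≤ (B.card : ℝ) := by
  obtain ⟨hK1, hK2⟩ := K_bounds hP hK hδ0 hδ
  have hP2 : (2 : ℝ) ≤ P := by exact_mod_cast hP
  have hK9 : 9 ≤ K := by linarith
  obtain ⟨h, Q, hhQ, hQ1, hQ2, h1, h2, -, -⟩ := exists_hQ hK9 hY
  obtain ⟨B, hB, hB2⟩ := exists_NN (x := x) hK9 hhQ hQ1 h1 h2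
  refine ⟨B, hB, ?_⟩
  have h5 : (B.card : ℝ) = (NN x Y K h Q : ℝ) := by exact_mod_cast hB2
  rw [h5]
  have hp : Q + 1 ≤ h + P := by
    have h6 : 9 * ((Q : ℝ) - h) < 9 * P := by linarith
    have h7 : (Q : ℝ) < ((h + P : ℕ) : ℝ) := by push_cast; linarith
    have h8 : Q < h + P := by exact_mod_cast h7
    omega
  obtain ⟨g, hg⟩ : ∃ g : ℕ, g = P - (Q + 1 - h) := ⟨_, rfl⟩
  have h6 := NN_rot_le hP hK hδ0 hδ (x := x) (Y := Y) hhQ hp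
  rw [← hg] at h6
  have h7 := (abs_le.1 h6).1
  have h8 := Lam_sub (Y := Y) (K := K) hhQ
  have h9 : 0 ≤ (Y - 9 * Q) * (9 - (Y - 9 * Q)) := mul_nonneg (by linarith) (by linarith)
  have hgR : (g : ℝ) = P - (Q + 1 - h) := by
    rw [hg, Nat.cast_sub (by omega), Nat.cast_sub (by omega)]
    push_cast
    ring
  obtain ⟨θ, hθ⟩ : ∃ θ : ℝ, θ = (K - (Y - 9 * h)) / 9 := ⟨_, rfl⟩
  have hθ1 : (g : ℝ) - 1 / 9 < θ := by rw [hθ, hgR]; linarith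
  have hθ2 : K - (Y - 9 * h) = 9 * θ := by rw [hθ]; ring
  rw [hθ2] at h8
  have h10 : ell Y K + 9 / 2 * (θ ^ 2 - θ) ≤ Lam Y K h Q := by nlinarith
  have h11 : (g : ℝ) - 3 ≤ 9 / 2 * (θ ^ 2 - θ) := by
    rcases Nat.lt_or_ge g 2 with hg2 | hg2
    · have : (g : ℝ) ≤ 1 := by exact_mod_cast (by omega : g ≤ 1)
      nlinarith [sq_nonneg (θ - 1 / 2)]
    · have : (2 : ℝ) ≤ g := by exact_mod_cast hg2
      nlinarith
  linarith

/-- upper bound of the rows with bounded error -/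
theorem row_up_rot {P : ℕ} (hP : 2 ≤ P) {K δ : ℝ} (hK : K = 9 * P - 1 + 1 / P + δ) (hδ0 : 0 ≤ δ)
    (hδ : δ * P ^ 2 ≤ 1) (x Y : ℝ) (hY : K ≤ Y) (B : Finset ℤ) (hB : ∀ c ∈ B, c ∈ U x Y K) :
    (B.card : ℝ) ≤ ell Y K + 8 := by
  obtain ⟨hK1, hK2⟩ := K_bounds hP hK hδ0 hδ
  have hP2 : (2 : ℝ) ≤ P := by exact_mod_cast hP
  have hK9 : 9 ≤ K := by linarith
  obtain ⟨h, Q, hhQ, hQ1, hQ2, -, h2, h3, -⟩ := exists_hQ hK9 (by linarith : 0 ≤ Y)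
  have h3' := h3 hY
  have h4 := card_le_NN (x := x) hK9 hhQ hQ1 hQ2 hB
  have h5 : (B.card : ℝ) ≤ (NN x Y K h Q : ℝ) := by exact_mod_cast h4
  have hp : Q + 1 ≤ h + P := by
    have h7 : (Q : ℝ) < ((h + P : ℕ) : ℝ) := by push_cast; linarith
    have h8 : Q < h + P := by exact_mod_cast h7
    omega
  have hp2 : h + P ≤ Q + 2 := by
    have h7 : ((h + P : ℕ) : ℝ) < ((Q + 3 : ℕ) : ℝ) := by push_cast; linarith
    have h8 : h + P < Q + 3 := by exact_mod_cast h7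
    omega
  have h6 := NN_rot_le hP hK hδ0 hδ (x := x) (Y := Y) hhQ hp
  have h7 := (abs_le.1 h6).2
  have h8 : ((P - (Q + 1 - h) : ℕ) : ℝ) ≤ 1 := by exact_mod_cast (by omega : P - (Q + 1 - h) ≤ 1)
  have h9 := Lam_up hhQ hQ2 hQ1 h2 h3'
  linarith

/-- **the first step, independence** -/
theorem firstS (key : KeyS) (P : ℕ) (hP : 2 ≤ P) (K δ : ℝ) (hK : K = 9 * P - 1 + 1 / P + δ)
    (hδ0 : 0 ≤ δ) (hδ : δ * P ^ 2 ≤ 1) (hirr : Irrational K) (ι : Type) [Fintype ι] (w : ι → ℕ)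
    (d : ℕ) (Z : ℝ) (hZ : Z + K ^ 2 / 18 + 10 ≤ K / 3 * (d + 3 / 2)) (h : Sur w (Op Z (K ^ 2 / 9))) :
    Sur w (TZ d) := by
  obtain ⟨hK1, hK2⟩ := K_bounds hP hK hδ0 hδ
  have hP2 : (2 : ℝ) ≤ P := by exact_mod_cast hP
  exact Sur_err key (by linarith) hirr (e := 8) (by norm_num) (row_low_rot hP hK hδ0 hδ) (by linarith) h

/-- **the first step, emptiness** -/
theorem firstE (key : KeyE) (P : ℕ) (hP : 2 ≤ P) : ∃ d0 : ℕ, ∀ (K δ : ℝ), K = 9 * P - 1 + 1 / P + δ →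
    0 ≤ δ → δ * P ^ 2 ≤ 1 → ∀ (ι : Type) (w : ι → ℕ) (d : ℕ) (Z : ℝ), d0 ≤ d →
    K / 3 * (d + 3 / 2) + 10 ≤ Z + K ^ 2 / 18 → Emp w (Cl Z (K ^ 2 / 9)) → Emp w (TZ d) := by
  refine ⟨3 * P * (10 * P ^ 2 + 1), fun K δ hK hδ0 hδ ι w d Z hd hZ h => ?_⟩
  obtain ⟨hK1, hK2⟩ := K_bounds hP hK hδ0 hδ
  have hP2 : (2 : ℝ) ≤ P := by exact_mod_cast hP
  have hK0 : 0 < K := by linarith
  have hd0 : (0 : ℝ) ≤ d := Nat.cast_nonneg d
  have hdR : 3 * (P : ℝ) * (10 * P ^ 2 + 1) ≤ d := by exact_mod_cast hd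
  obtain ⟨J, hJ⟩ : ∃ J : ℕ, J = ⌊3 * (d : ℝ) / K⌋₊ := ⟨_, rfl⟩
  have hJ1 : K * J ≤ 3 * d := by
    have := Nat.floor_le (show 0 ≤ 3 * (d : ℝ) / K by positivity)
    rw [← hJ, le_div_iff₀ hK0] at this
    linarith
  have hJ2 : 3 * (d : ℝ) < K * (J + 1) := by
    have := Nat.lt_floor_add_one (3 * (d : ℝ) / K)
    rw [← hJ, div_lt_iff₀ hK0] at this
    linarith
  have hJ3 : 10 * (P : ℝ) ^ 2 ≤ J := by
    have h1 : 9 * (P : ℝ) * (10 * P ^ 2 + 1) < 9 * P * (J + 1) := by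
      have h2 : K * ((J : ℝ) + 1) ≤ 9 * P * (J + 1) :=
        mul_le_mul_of_nonneg_right hK2.le (by positivity)
      linarith
    have h3 := lt_of_mul_lt_mul_left h1 (by positivity)
    linarith
  have hν : 2 ≤ K ^ 2 / 9 := by nlinarith
  have h1 : 1 ≤ ⌊K ^ 2 / 9⌋₊ := Nat.le_floor (by push_cast; linarith)
  have hsig : ((⌊K ^ 2 / 9⌋₊ - 1 : ℕ) : ℝ) + 1 ≤ K ^ 2 / 9 := by
    push_cast [Nat.cast_sub h1]
    have := Nat.floor_le (show 0 ≤ K ^ 2 / 9 by linarith)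
    linarith
  have hsig2 : K ^ 2 / 9 - ((⌊K ^ 2 / 9⌋₊ - 1 : ℕ) : ℝ) ≤ 2 := by
    push_cast [Nat.cast_sub h1]
    have := Nat.lt_floor_add_one (K ^ 2 / 9)
    linarith
  refine Emp_err key (by linarith) (e := 8) hsig hJ1 hJ2 (row_up_rot hP hK hδ0 hδ) (by linarith) ?_ h
  obtain ⟨Y, hY⟩ : ∃ Y : ℝ, Y = 3 * d - K * J := ⟨_, rfl⟩
  have hY0 : 0 ≤ Y := by rw [hY]; linarith
  have hYK : Y < K := by rw [hY]; linarith
  have hσJ : ((⌊K ^ 2 / 9⌋₊ - 1 : ℕ) : ℝ) * J ≤ (K ^ 2 / 9 - 1) * J :=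
    mul_le_mul_of_nonneg_right (by linarith) (Nat.cast_nonneg J)
  have e1 : K ^ 2 / 9 * J = K / 3 * d - K * Y / 9 := by rw [hY]; ring
  rw [← hY]
  have h5 : (K - Y) ^ 2 ≤ K ^ 2 := pow_le_pow_left₀ (by linarith) (by linarith) 2
  have h6 : K ^ 2 ≤ 81 * P ^ 2 := by nlinarith
  have h7 : (P : ℝ) ≤ P ^ 2 / 2 := by nlinarith
  nlinarith

end Pool.Agent.TH641.NW
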