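import Pool.Agent.TH641.NW.Plane

/-! Explicit windows for every number `n ≥ 10` of points. -/

namespace Pool.Agent.TH641.NW

open Finset Pool.Agent.TH176.Nag Pool.Agent.TH603.Sur Pool.Agent.TH603.Cut

/-- emptiness of the final triangle -/
theorem Emp_Cl {ι : Type} [Fintype ι] (w : ι → ℕ) :
    Emp w (Cl ((∑ i, w i : ℕ) : ℝ) (Fintype.card ι : ℝ)) := by
  refine (Emp_rows w 0).mono ?_
  rintro ⟨p, q⟩ ⟨hp, hq, hpq⟩
  simp only at hp hq hpq
  obtain ⟨k, rfl⟩ := Int.eq_ofNat_of_zero_le hq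
  obtain ⟨p', rfl⟩ := Int.eq_ofNat_of_zero_le hp
  simp only [Int.cast_natCast] at hpq
  have h2 : p' + 1 + Fintype.card ι * k ≤ ∑ i, w i := by exact_mod_cast hpq
  have h3 : ∑ i, w i ≤ ∑ i, (w i - k) + Fintype.card ι * k := by
    have : Fintype.card ι * k = ∑ _i : ι, k := by simp
    rw [this, ← sum_add_distrib]
    exact sum_le_sum fun i _ => by omega
  refine ⟨hq, hp, ?_⟩
  simp only [Int.toNat_natCast, zero_add]
  have : p' < ∑ i, (w i - k) := by omega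
  exact_mod_cast this

/-- independence for the final triangle -/
theorem Sur_Op {ι : Type} [Fintype ι] (w : ι → ℕ) (b : ℕ) (hb : ∀ i, w i ≤ b + 1) {n' : ℝ}
    (hn' : n' ≤ Fintype.card ι) : Sur w (Op ((∑ i, max (w i) b : ℕ) : ℝ) n') := by
  apply Sur_rows w 0
  intro k j hj
  have hk : ∃ i, k < w i := by
    by_contra hcon
    push Not at hcon
    have : ∑ i, (w i - k) = 0 := sum_eq_zero fun i _ => Nat.sub_eq_zero_of_le (hcon i)
    omega
  obtain ⟨i, hi⟩ := hk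
  have hkb : k ≤ b := by have := hb i; omega
  have h2 : ∑ i, (w i - k) + Fintype.card ι * k ≤ ∑ i, max (w i) b := by
    have : Fintype.card ι * k = ∑ _i : ι, k := by simp
    rw [this, ← sum_add_distrib]
    refine sum_le_sum fun i _ => ?_
    rcases le_total (w i) k with h | h
    · rw [Nat.sub_eq_zero_of_le h, zero_add]
      exact hkb.trans (le_max_right _ _)
    · rw [Nat.sub_add_cancel h]
      exact le_max_left _ _
  have h3 : j + Fintype.card ι * k < ∑ i, max (w i) b := by omega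
  refine ⟨by simp, by simp, ?_⟩
  simp only [zero_add]
  have h4 : (((j + Fintype.card ι * k : ℕ)) : ℝ) < ((∑ i, max (w i) b : ℕ) : ℝ) := by exact_mod_cast h3
  have h5 : n' * k ≤ Fintype.card ι * k := mul_le_mul_of_nonneg_right hn' (Nat.cast_nonneg k)
  rw [Nat.cast_add, Nat.cast_mul] at h4
  push_cast at h4 ⊢
  linarith

theorem Emp_win_core (key : KeyE) {ι : Type} [Fintype ι] {w : ι → ℕ} {n : ℕ} (hn : 10 ≤ n)
    (hcard : Fintype.card ι = n) {d J : ℕ}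
    (h1 : √(n : ℝ) * (d + 3 / 2) + √(n : ℝ) / 3 + 17 / 8 < ((∑ i, w i : ℕ) : ℝ) + n / 2)
    (hJ1 : √(n : ℝ) * J ≤ d) (hJ2 : (d : ℝ) < √(n : ℝ) * (J + 1))
    (htop : (3 * d - 3 * √(n : ℝ) * J) ^ 2 / 18 + 11 / 18 * (3 * d - 3 * √(n : ℝ) * J) + 17 / 8 +
      ((n : ℝ) - 1) * J ≤ ((∑ i, w i : ℕ) : ℝ)) : Emp w (TZ d) := by
  classical
  have hnR : (10 : ℝ) ≤ n := by exact_mod_cast hn
  have hs : √(n : ℝ) * √(n : ℝ) = n := Real.mul_self_sqrt (by linarith)
  have hs3 : 3 ≤ √(n : ℝ) := Real.le_sqrt_of_sq_le (by linarith)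
  have eK : (3 * √(n : ℝ)) ^ 2 = 9 * n := by rw [mul_pow, sq (√(n : ℝ)), hs]; ring
  have hσ : ((n - 1 : ℕ) : ℝ) = n - 1 := by
    rw [Nat.cast_sub (by omega)]; push_cast; ring
  have hK0 : 0 ≤ 3 * √(n : ℝ) := by linarith
  refine Emp_pl key (K := 3 * √(n : ℝ)) hK0 (n' := (n : ℝ)) (Z' := ((∑ i, w i : ℕ) : ℝ))
    (σ := n - 1) (J := J) (ρ := fun j => if j < J then ((∑ i, w i : ℕ) : ℝ) - 1 - n * j else
    if j = J then (3 * d - 3 * √(n : ℝ) * J) ^ 2 / 18 + 11 / 18 * (3 * d - 3 * √(n : ℝ) * J) + 17 / 8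
      else 0) ?_ ?_ ?_ ?_ ?_ ?_
  · rw [hσ]; linarith
  · intro x j B hB
    split_ifs with h2 h3
    · have h3 : (j : ℝ) + 1 ≤ J := by exact_mod_cast h2
      have h4 := mul_le_mul_of_nonneg_left h3 hK0
      have h5 := up_row (x := x) (by linarith) (by linarith) hB
      rw [ell_row, eK] at h5
      have h6 : (B.card : ℝ) < (((∑ i, w i : ℕ) : ℤ) - n * j : ℤ) := by
        push_cast
        push_cast at h1
        linarith
      have h7 : (B.card : ℤ) < ((∑ i, w i : ℕ) : ℤ) - n * j := by exact_mod_cast h6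
      have h8 : (B.card : ℤ) ≤ ((∑ i, w i : ℕ) : ℤ) - 1 - n * j := by omega
      exact_mod_cast h8
    · subst h3
      exact up_top (by linarith) (by linarith) (by linarith) hB
    · have h3 : (J : ℝ) + 1 ≤ j := by exact_mod_cast (by omega : J + 1 ≤ j)
      have h4 := mul_le_mul_of_nonneg_left h3 hK0
      have h5 : B = ∅ := by
        rw [Finset.eq_empty_iff_forall_notMem]
        exact fun c hc => U_empty (by linarith) (hB c hc)
      rw [h5]; simp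
  · intro j hj
    simp only [if_pos hj]
    rw [hσ]
    linarith
  · simp only [lt_irrefl, if_false, if_true]
    rw [hσ]
    exact htop
  · intro j hj
    simp only [if_neg (not_lt.2 hj.le), if_neg (show ¬ j = J by omega)]
    norm_num
  · rw [← hcard]
    exact Emp_Cl w

/-- emptiness for large multiplicities -/
theorem Emp_win (key : KeyE) {ι : Type} [Fintype ι] {w : ι → ℕ} {n : ℕ} (hn : 10 ≤ n)
    (hcard : Fintype.card ι = n) {d : ℕ} (hw : (n : ℝ) * ((n : ℝ) / 2 + 2) ≤ ((∑ i, w i : ℕ) : ℝ))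
    (h1 : √(n : ℝ) * (d + 3 / 2) + √(n : ℝ) / 3 + 17 / 8 < ((∑ i, w i : ℕ) : ℝ) + n / 2) :
    Emp w (TZ d) := by
  have hnR : (10 : ℝ) ≤ n := by exact_mod_cast hn
  obtain ⟨s, hsdef⟩ : ∃ s, s = √(n : ℝ) := ⟨_, rfl⟩
  obtain ⟨W, hW⟩ : ∃ W : ℝ, W = ((∑ i, w i : ℕ) : ℝ) := ⟨_, rfl⟩
  have hs : s * s = n := by rw [hsdef]; exact Real.mul_self_sqrt (by linarith)
  have hs3 : 3.16 ≤ s := by rw [hsdef]; exact Real.le_sqrt_of_sq_le (by norm_num; linarith)
  have hs0 : 0 < s := by linarith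
  rw [← hsdef, ← hW] at h1
  rw [← hW] at hw
  obtain ⟨u, hu⟩ : ∃ u : ℝ, u = (W + n / 2 - s / 3 - 17 / 8) / s - 3 / 2 := ⟨_, rfl⟩
  have hus : s * (u + 3 / 2) = W + n / 2 - s / 3 - 17 / 8 := by
    rw [hu]; field_simp; ring
  have hdu : (d : ℝ) < u := by
    have : s * ((d : ℝ) + 3 / 2) < s * (u + 3 / 2) := by rw [hus]; linarith
    have := lt_of_mul_lt_mul_left this hs0.le
    linarith
  have hd0 : (0 : ℝ) ≤ d := Nat.cast_nonneg d
  have hu0 : 0 ≤ u := hd0.trans hdu.le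
  have hceil : d + 1 ≤ ⌈u⌉₊ := by
    have : (d : ℝ) < (⌈u⌉₊ : ℝ) := lt_of_lt_of_le hdu (Nat.le_ceil u)
    have : d < ⌈u⌉₊ := by exact_mod_cast this
    omega
  obtain ⟨d', hd'⟩ : ∃ d' : ℕ, d' + 1 = ⌈u⌉₊ := ⟨⌈u⌉₊ - 1, by omega⟩
  have hd1 : (d' : ℝ) < u := by
    have h2 := Nat.ceil_lt_add_one hu0
    rw [← hd'] at h2
    push_cast at h2
    linarith
  have hd2 : u ≤ d' + 1 := by
    have h2 := Nat.le_ceil u
    rw [← hd'] at h2
    push_cast at h2
    exact h2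
  have hdd : d ≤ d' := by omega
  obtain ⟨J, hJ⟩ : ∃ J : ℕ, J = ⌊(d' : ℝ) / s⌋₊ := ⟨_, rfl⟩
  have hJ1 : s * J ≤ d' := by
    have := Nat.floor_le (show 0 ≤ (d' : ℝ) / s by positivity)
    rw [← hJ, le_div_iff₀ hs0] at this
    linarith
  have hJ2 : (d' : ℝ) < s * (J + 1) := by
    have := Nat.lt_floor_add_one ((d' : ℝ) / s)
    rw [← hJ, div_lt_iff₀ hs0] at this
    linarith
  have hE1 : s * ((d' : ℝ) + 3 / 2) < W + n / 2 - s / 3 - 17 / 8 := by
    rw [← hus]; exact mul_lt_mul_of_pos_left (by linarith) hs0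
  have hE2 : W + n / 2 - s / 3 - 17 / 8 ≤ s * ((d' : ℝ) + 5 / 2) := by
    rw [← hus]; exact mul_le_mul_of_nonneg_left (by linarith) hs0.le
  have hJn : (n : ℝ) / 2 ≤ J := by
    have h2 : s * (d' : ℝ) < s * (s * (J + 1)) := mul_lt_mul_of_pos_left hJ2 hs0
    have h3 : s * (s * ((J : ℝ) + 1)) = n * (J + 1) := by rw [← mul_assoc, hs]
    rw [h3] at h2
    have h4 : n * ((n : ℝ) / 2) < n * J := by
      have h5 : (17 / 6) * s + 17 / 8 ≤ 3 / 2 * n := by
        rw [← hs]; nlinarith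
      linarith
    exact (lt_of_mul_lt_mul_left h4 (by linarith)).le
  have hmain : Emp w (TZ d') := by
    refine Emp_win_core key hn hcard (J := J) ?_ ?_ ?_ ?_
    · rw [← hsdef, ← hW]; linarith
    · rw [← hsdef]; exact hJ1
    · rw [← hsdef]; exact hJ2
    · rw [← hsdef, ← hW]
      obtain ⟨Y, hY⟩ : ∃ Y : ℝ, Y = 3 * d' - 3 * s * J := ⟨_, rfl⟩
      have hY0 : 0 ≤ Y := by rw [hY]; linarith
      have hYK : Y < 3 * s := by rw [hY]; linarith
      rw [← hY]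
      have e1 : (n : ℝ) * J = s * d' - s * Y / 3 := by rw [hY, ← hs]; ring
      have h5 : (3 * s - Y) ^ 2 ≤ (3 * s) ^ 2 := pow_le_pow_left₀ (by linarith) (by linarith) 2
      have h6 : (3 * s) ^ 2 = 9 * n := by rw [mul_pow, sq s, hs]; ring
      have h7 : (3 * s - Y) ^ 2 = 9 * n - 6 * s * Y + Y ^ 2 := by
        have : (3 * s - Y) ^ 2 = 9 * (s * s) - 6 * s * Y + Y ^ 2 := by ring
        rw [this, hs]
      rw [sub_mul, e1]
      linarith
  refine hmain.mono ?_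
  rintro ⟨p, q⟩ ⟨hp, hq, hpq⟩
  exact ⟨hp, hq, hpq.trans (by exact_mod_cast hdd)⟩

/-- emptiness for equal multiplicities which are not small -/
theorem Emp_win_uni (key : KeyE) (hN : ∀ {ι : Type} [Fintype ι] (_ : 9 ≤ Fintype.card ι) {w : ι → ℕ}
      {d : ℕ} (_ : √(Fintype.card ι) * (d : ℝ) < ∑ i, (w i : ℝ)), Emp w (TZ d))
    {n m d : ℕ} (hn : 10 ≤ n) (hm : (n : ℝ) - 6 * √(n : ℝ) + 10 ≤ m)
    (h1 : √(n : ℝ) * (d + 3 / 2) + √(n : ℝ) / 3 + 17 / 8 < n * m + n / 2) :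
    Emp (fun _ : Fin n => m) (TZ d) := by
  have hnR : (10 : ℝ) ≤ n := by exact_mod_cast hn
  obtain ⟨s, hsdef⟩ : ∃ s, s = √(n : ℝ) := ⟨_, rfl⟩
  have hs : s * s = n := by rw [hsdef]; exact Real.mul_self_sqrt (by linarith)
  have hs3 : 3 ≤ s := by rw [hsdef]; exact Real.le_sqrt_of_sq_le (by norm_num; linarith)
  have hs0 : 0 < s := by linarith
  rcases lt_or_ge (s * d) ((n : ℝ) * m) with hlt | hge
  · refine hN (by simpa using (by omega : 9 ≤ n)) ?_
    rw [Fintype.card_fin, ← hsdef]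
    simpa using hlt
  · rw [← hsdef] at hm h1
    have h2 : s * m ≤ d := by
      have h3 : s * (s * m) ≤ s * d := by rw [← mul_assoc, hs]; exact hge
      exact le_of_mul_le_mul_left h3 hs0
    have h3 : (d : ℝ) + 11 / 6 ≤ s * m + s / 2 := by
      have h4 : s * ((d : ℝ) + 11 / 6) ≤ s * (s * m + s / 2) := by
        have e : s * (s * m + s / 2) = n * m + n / 2 := by rw [← hs]; ring
        rw [e]; linarith
      exact le_of_mul_le_mul_left h4 hs0
    have hW : ((∑ _i : Fin n, m : ℕ) : ℝ) = n * m := by simp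
    refine Emp_win_core key hn (Fintype.card_fin n) (J := m) ?_ ?_ ?_ ?_
    · rw [← hsdef, hW]; exact h1
    · rw [← hsdef]; exact h2
    · rw [← hsdef]; linarith
    · rw [← hsdef, hW]
      obtain ⟨Y, hY⟩ : ∃ Y : ℝ, Y = 3 * d - 3 * s * m := ⟨_, rfl⟩
      have hY0 : 0 ≤ Y := by rw [hY]; linarith
      have hY1 : Y ≤ 3 / 2 * s - 11 / 2 := by rw [hY]; linarith
      have hY2 : s * Y ≤ 3 * (n / 2 - 11 / 6 * s - 17 / 8) := by
        have e : s * Y = 3 * (s * d - n * m) := by rw [hY, ← hs]; ring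
        rw [e]; linarith
      rw [← hY]
      have hs4 : 4.4 ≤ s := by
        by_contra hcon
        push Not at hcon
        have h5 : 0 ≤ s * Y := mul_nonneg hs0.le hY0
        rw [← hs] at hY2
        nlinarith
      have h6 : Y ^ 2 + 11 * Y ≤ 9 / 4 * n - 121 / 4 := by
        have h8 := pow_le_pow_left₀ hY0 hY1 2
        have e : (3 / 2 * s - 11 / 2) ^ 2 = 9 / 4 * (s * s) - 33 / 2 * s + 121 / 4 := by ring
        rw [e, hs] at h8
        linarith
      have h7 : (n : ℝ) / 8 + 4 / 9 ≤ m := by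
        have h8 : 0 ≤ (s - 4.4) * (7 / 8 * s - 2.15) := mul_nonneg (by linarith) (by linarith)
        have e : (s - 4.4) * (7 / 8 * s - 2.15) = 7 / 8 * (s * s) - 6 * s + 9.46 := by ring
        rw [e, hs] at h8
        linarith
      linarith

/-- independence -/
theorem Sur_win (key : KeyS) {ι : Type} [Fintype ι] {w : ι → ℕ} {n : ℕ} (hn : 10 ≤ n)
    (hcard : Fintype.card ι = n) {b d : ℕ} (hb : ∀ i, w i ≤ b + 1)
    (h1 : ((∑ i, max (w i) b : ℕ) : ℝ) + n / 2 + √(n : ℝ) / 3 + 9 / 8 < √(n : ℝ) * (d + 3 / 2)) :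
    Sur w (TZ d) := by
  have hnR : (10 : ℝ) ≤ n := by exact_mod_cast hn
  obtain ⟨s, hsdef⟩ : ∃ s, s = √(n : ℝ) := ⟨_, rfl⟩
  obtain ⟨W, hW⟩ : ∃ W : ℝ, W = ((∑ i, max (w i) b : ℕ) : ℝ) := ⟨_, rfl⟩
  have hs : s * s = n := by rw [hsdef]; exact Real.mul_self_sqrt (by linarith)
  have hs3 : 3.1 ≤ s := by rw [hsdef]; exact Real.le_sqrt_of_sq_le (by norm_num; linarith)
  have hs0 : 0 < s := by linarith
  rw [← hsdef, ← hW] at h1
  -- an irrational slope slightly smaller than `3 s`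
  obtain ⟨η, hη0, hη⟩ : ∃ η : ℝ, 0 < η ∧ η ≤ 0.3 ∧
      W + n / 2 + s / 3 + 9 / 8 + η * ((d + 3 / 2) / 3) ≤ s * (d + 3 / 2) := by
    have hd : 0 < ((d : ℝ) + 3 / 2) / 3 := by positivity
    refine ⟨min 0.3 ((s * (d + 3 / 2) - (W + n / 2 + s / 3 + 9 / 8)) / ((d + 3 / 2) / 3)), ?_,
      min_le_left _ _, ?_⟩
    · exact lt_min (by norm_num) (div_pos (by linarith) hd)
    · have h2 := mul_le_mul_of_nonneg_right (min_le_right (0.3 : ℝ)
        ((s * (d + 3 / 2) - (W + n / 2 + s / 3 + 9 / 8)) / ((d + 3 / 2) / 3))) hd.le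
      rw [div_mul_cancel₀ _ hd.ne'] at h2
      linarith
  obtain ⟨K, hKirr, hK1, hK2⟩ := exists_irrational_btwn (show 3 * s - η < 3 * s by linarith)
  have hK9 : 9 ≤ K := by linarith [hη.1]
  have hKs : K ^ 2 ≤ 9 * n := by
    have : K ^ 2 ≤ (3 * s) ^ 2 := pow_le_pow_left₀ (by linarith) hK2.le 2
    have e : (3 * s) ^ 2 = 9 * n := by rw [mul_pow, sq s, hs]; ring
    linarith
  have hmain : W + n / 2 + K / 9 + 9 / 8 ≤ K / 3 * ((d : ℝ) + 3 / 2) := by
    have h3 : (3 * s - η) / 3 * ((d : ℝ) + 3 / 2) ≤ K / 3 * (d + 3 / 2) :=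
      mul_le_mul_of_nonneg_right (by linarith) (by positivity)
    have h4 : (3 * s - η) / 3 * ((d : ℝ) + 3 / 2) = s * (d + 3 / 2) - η * ((d + 3 / 2) / 3) := by ring
    linarith [hη.2]
  refine Sur_pl key hK9 hKirr (n' := (n : ℝ)) (Z' := W) ?_ ?_
  · intro x j hj
    have hj0 : (0 : ℝ) ≤ j := Nat.cast_nonneg j
    have hY : 0 ≤ 3 * (d : ℝ) - K * j := by
      -- `K j ≤ 3 s j` and `n j < W`
      have h3 : K * j ≤ 3 * s * j := mul_le_mul_of_nonneg_right hK2.le hj0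
      have h4 : s * (3 * s * j) < s * (3 * d) := by
        have e : s * (3 * s * (j : ℝ)) = 3 * (n * j) := by rw [← hs]; ring
        rw [e]
        have h5 : W + n / 2 + s / 3 + 9 / 8 < s * (d + 3 / 2) := h1
        have h6 : 3 / 2 * s ≤ n / 2 + s / 3 := by rw [← hs]; nlinarith
        linarith
      have h5 := lt_of_mul_lt_mul_left h4 hs0.le
      linarith
    obtain ⟨B, hB1, hB2⟩ := low_row (x := x) hK9 hY
    refine ⟨B, hB1, ?_⟩
    rw [ell_row] at hB2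
    have h7 : K ^ 2 / 9 * j ≤ n * j := mul_le_mul_of_nonneg_right (by linarith) hj0
    have h8 : W - n * j - 1 < (B.card : ℝ) := by linarith
    rw [hW] at h8 ⊢
    have h9 : ((((∑ i, max (w i) b : ℕ) : ℤ) - n * j - 1 : ℤ) : ℝ) < ((B.card : ℤ) : ℝ) := by
      push_cast at h8 ⊢
      exact h8
    have h10 : ((∑ i, max (w i) b : ℕ) : ℤ) - n * j - 1 < (B.card : ℤ) := by exact_mod_cast h9
    have h11 : ((∑ i, max (w i) b : ℕ) : ℤ) - n * j ≤ (B.card : ℤ) := by omega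
    exact_mod_cast h11
  · rw [hW]
    exact Sur_Op w b hb (by rw [hcard])

end Pool.Agent.TH641.NW
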