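import Pool.Agent.TH641.NW.Win2
import Pool.Agent.TH641.NW.Inst
import Pool.Agent.TH387.SH.Two
import Pool.Agent.H932R3.NearFinal

/-! The expected dimension at every number `n ≥ 10` of general points, with explicit windows. -/

namespace Pool.Agent.TH641.NW

open Finset Pool.Agent.TH176.Nag Pool.Agent.TH603.Sur Pool.Agent.TH603.Cut Pool.Agent.H932R3

/-- **Postulation of `n ≥ 10` general fat points of arbitrary multiplicities, explicit windows.** -/
theorem expDim_win2 {n : ℕ} (hn : 10 ≤ n) (w : Fin n → ℕ) :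
    ∃ F : MvPolynomial (Fin n × Fin 2) ℚ, F ≠ 0 ∧
      ∀ {L : Type} [Field L] [CharZero L] (P : Fin n → Fin 2 → L),
        MvPolynomial.aeval (fun ij : Fin n × Fin 2 => P ij.1 ij.2) F ≠ 0 →
        ∀ d : ℕ, ((√(n : ℝ) * d < ∑ i, (w i : ℝ) ∨
            ((n : ℝ) * ((n : ℝ) / 2 + 2) ≤ ∑ i, (w i : ℝ) ∧
              √(n : ℝ) * (d + 3 / 2) + √(n : ℝ) / 3 + 9 / 8 < (∑ i, (w i : ℝ)) + (n : ℝ) / 2)) ∨
          ((∃ b : ℕ, (∀ i, w i ≤ b + 1) ∧
            (n : ℝ) + ((∑ i, max (w i) b : ℕ) : ℝ) < √(n : ℝ) * (d + 3)) ∨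
          (∃ b : ℕ, (∀ i, w i ≤ b + 1) ∧
            ((∑ i, max (w i) b : ℕ) : ℝ) + (n : ℝ) / 2 + √(n : ℝ) / 3 + 1 / 8 <
              √(n : ℝ) * (d + 3 / 2)))) →
          ExpDim L w P d := by
  have hnR : (10 : ℝ) ≤ n := by exact_mod_cast hn
  have hs : 1 ≤ √(n : ℝ) := Real.one_le_sqrt.2 (by linarith)
  have hss : √(n : ℝ) * √(n : ℝ) = n := Real.mul_self_sqrt (by linarith)
  refine expDim_two (N := ∑ i, w i + n) (fun d hd => ?_) (fun d hd => ?_) (fun d hd => ?_)
  · have h1 : (d : ℝ) ≤ √(n : ℝ) * d := le_mul_of_one_le_left (Nat.cast_nonneg _) hs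
    have h2 : (d : ℝ) ≤ ((∑ i, w i + n : ℕ) : ℝ) := by
      rw [Nat.cast_add]
      rcases hd with hd | ⟨_, hd⟩
      · push_cast; linarith
      · push_cast; linarith
    exact_mod_cast h2
  · rcases hd with hd | ⟨hd1, hd2⟩
    · refine Pool.Agent.TH603.EL.Emp_plane (by rw [Fintype.card_fin]; omega) ?_
      rw [Fintype.card_fin]
      exact hd
    · refine Emp_win2 keyE hn (Fintype.card_fin n) ?_ ?_
      · push_cast; exact hd1
      · push_cast; exact hd2
  · rcases hd with ⟨b, hb, hlt⟩ | ⟨b, hb, hlt⟩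
    · refine Pool.Agent.TH387.SH.Sur_plane (by rw [Fintype.card_fin]; exact hn) hb ?_
      rw [Fintype.card_fin]
      exact hlt
    · exact Sur_win2 keyS hn (Fintype.card_fin n) hb hlt

/-- **The expected dimension at `n ≥ 10` general points of one multiplicity**, in all degrees outside
an explicit window of length less than two (in the variable `2 d + 3`). -/
theorem expDim_uni_win2 {n : ℕ} (hn : 10 ≤ n) {m : ℕ} (hm : 1 ≤ m) {L : Type} [Field L] [CharZero L] :
    ∃ F : MvPolynomial (Fin n × Fin 2) ℚ, F ≠ 0 ∧ ∀ (P : Fin n → Fin 2 → L),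
      MvPolynomial.aeval (fun ij : Fin n × Fin 2 => P ij.1 ij.2) F ≠ 0 →
      ∀ d : ℕ, (min (√(n : ℝ) - 3) (2 / 3 + 9 / (4 * √(n : ℝ))) <
            √(n : ℝ) * (2 * m + 1) - (2 * d + 3) ∨
          min (√(n : ℝ) - 3) (2 / 3 + 1 / (4 * √(n : ℝ))) < (2 * d + 3) - √(n : ℝ) * (2 * m + 1)) →
        ExpDim L (fun _ => m) P d := by
  have hnR : (10 : ℝ) ≤ n := by exact_mod_cast hn
  have hs1 : 1 ≤ √(n : ℝ) := Real.one_le_sqrt.2 (by linarith)
  have hs0 : 0 < √(n : ℝ) := by linarith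
  have hss : √(n : ℝ) * √(n : ℝ) = n := Real.mul_self_sqrt (by linarith)
  rcases le_or_gt (((m + 1 : ℕ) : ℝ)) ((n : ℝ) - 6 * √(n : ℝ) + 11) with hsm | hlg
  · obtain ⟨F, hF, hF'⟩ := near_points (L := L) (n := n) (m := m) hn hm (w := fun _ => m)
      (fun _ => Or.inl rfl) (near_cond (by omega) (fun _ => Or.inl rfl) (Or.inl hsm))
    exact ⟨F, hF, fun P hP d _ => hF' P hP d⟩
  · have hmR : (n : ℝ) - 6 * √(n : ℝ) + 10 ≤ m := by push_cast at hlg; linarith
    obtain ⟨s, hsdef⟩ : ∃ s, s = √(n : ℝ) := ⟨_, rfl⟩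
    have key : ∀ a : ℝ, s * (2 / 3 + a / (4 * s)) = 2 / 3 * s + a / 4 := by
      intro a
      rw [← hsdef] at hs0
      field_simp
    refine (fun H => ?_ : (∃ F : MvPolynomial (Fin n × Fin 2) ℚ, F ≠ 0 ∧
      ∀ {L : Type} [Field L] [CharZero L] (P : Fin n → Fin 2 → L),
        MvPolynomial.aeval (fun ij : Fin n × Fin 2 => P ij.1 ij.2) F ≠ 0 →
        ∀ d : ℕ, ((min (√(n : ℝ) - 3) (2 / 3 + 9 / (4 * √(n : ℝ))) <
            √(n : ℝ) * (2 * m + 1) - (2 * d + 3)) ∨
          min (√(n : ℝ) - 3) (2 / 3 + 1 / (4 * √(n : ℝ))) < (2 * d + 3) - √(n : ℝ) * (2 * m + 1)) →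
        ExpDim L (fun _ => m) P d) → _) (expDim_two (N := n * (2 * m + 1))
          (fun d hd => ?_) (fun d hd => ?_) (fun d hd => ?_))
    · obtain ⟨F, hF, hF'⟩ := H
      exact ⟨F, hF, fun P hP d hd => hF' P hP d hd⟩
    · -- the bound
      have h1 : 0 ≤ min (√(n : ℝ) - 3) (2 / 3 + 9 / (4 * √(n : ℝ))) := by
        refine le_min ?_ (by positivity)
        have : 3 ≤ √(n : ℝ) := Real.le_sqrt_of_sq_le (by linarith)
        linarith
      have h2 : √(n : ℝ) * (2 * m + 1) ≤ n * (2 * m + 1) := by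
        apply mul_le_mul_of_nonneg_right _ (by positivity)
        nlinarith
      have h3 : (d : ℝ) ≤ ((n * (2 * m + 1) : ℕ) : ℝ) := by
        push_cast
        have : (0 : ℝ) ≤ d := Nat.cast_nonneg d
        linarith
      exact_mod_cast h3
    · rw [← hsdef] at hd hs0 hss hmR
      rcases min_lt_iff.1 hd with h1 | h1
      · refine Pool.Agent.TH603.EL.Emp_plane (by rw [Fintype.card_fin]; omega) ?_
        rw [Fintype.card_fin, ← hsdef]
        have h2 : (d : ℝ) < s * m := by linarith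
        have h3 := mul_lt_mul_of_pos_left h2 hs0
        rw [← mul_assoc, hss] at h3
        simpa using h3
      · refine Emp_win_uni2 keyE (fun h w' d' h' => Pool.Agent.TH603.EL.Emp_plane h h') hn
          (by rw [← hsdef]; exact hmR) ?_
        rw [← hsdef]
        have h3 := mul_lt_mul_of_pos_left h1 hs0
        rw [key] at h3
        have e : s * (s * (2 * (m : ℝ) + 1) - (2 * d + 3)) = n * (2 * m + 1) - s * (2 * d + 3) := by
          rw [← hss]; ring
        rw [e] at h3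
        linarith
    · rw [← hsdef] at hd hs0 hss hmR
      have hsum : ((∑ _i : Fin n, max m m : ℕ) : ℝ) = n * m := by simp
      rcases min_lt_iff.1 hd with h1 | h1
      · refine Pool.Agent.TH387.SH.Sur_plane (b := m) (by rw [Fintype.card_fin]; exact hn)
          (fun _ => Nat.le_succ _) ?_
        rw [Fintype.card_fin, ← hsdef, hsum]
        have h2 : s * (m + 1) < d + 3 := by linarith
        have h3 := mul_lt_mul_of_pos_left h2 hs0
        rw [← mul_assoc, hss] at h3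
        linarith
      · refine Sur_win2 (b := m) keyS hn (Fintype.card_fin n) (fun _ => Nat.le_succ _) ?_
        rw [← hsdef, hsum]
        have h3 := mul_lt_mul_of_pos_left h1 hs0
        rw [key] at h3
        have e : s * ((2 * d + 3) - s * (2 * (m : ℝ) + 1)) = s * (2 * d + 3) - n * (2 * m + 1) := by
          rw [← hss]; ring
        rw [e] at h3
        linarith

/-- the two half-windows -/
theorem window_lt {n : ℕ} (hn : 10 ≤ n) : min (√(n : ℝ) - 3) (2 / 3 + 9 / (4 * √(n : ℝ))) +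
    min (√(n : ℝ) - 3) (2 / 3 + 1 / (4 * √(n : ℝ))) < 2 := by
  have hnR : (10 : ℝ) ≤ n := by exact_mod_cast hn
  have hs1 : 1 ≤ √(n : ℝ) := Real.one_le_sqrt.2 (by linarith)
  rcases le_or_gt n 15 with h | h
  · have h1 : √(n : ℝ) < 4 := by
      rw [Real.sqrt_lt' (by norm_num)]
      have : (n : ℝ) ≤ 15 := by exact_mod_cast h
      linarith
    have h2 := min_le_left (√(n : ℝ) - 3) (2 / 3 + 9 / (4 * √(n : ℝ)))
    have h3 := min_le_left (√(n : ℝ) - 3) (2 / 3 + 1 / (4 * √(n : ℝ)))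
    linarith
  · have h1 : 4 ≤ √(n : ℝ) := by
      apply Real.le_sqrt_of_sq_le
      have : (16 : ℝ) ≤ n := by exact_mod_cast h
      linarith
    have h2 := min_le_right (√(n : ℝ) - 3) (2 / 3 + 9 / (4 * √(n : ℝ)))
    have h3 := min_le_right (√(n : ℝ) - 3) (2 / 3 + 1 / (4 * √(n : ℝ)))
    have h4 : 9 / (4 * √(n : ℝ)) ≤ 9 / 16 := by
      apply div_le_div_of_nonneg_left (by norm_num) (by norm_num); linarith
    have h5 : 1 / (4 * √(n : ℝ)) ≤ 1 / 16 := by
      apply div_le_div_of_nonneg_left (by norm_num) (by norm_num); linarith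
    linarith

/-- the only degree which may be undecided -/
noncomputable def dcrit (n m : ℕ) : ℕ :=
  ⌊(√(n : ℝ) * (2 * m + 1) - 3 + min (√(n : ℝ) - 3) (2 / 3 + 1 / (4 * √(n : ℝ)))) / 2⌋₊

/-- **All degrees but one**: at `n ≥ 10` general points of one multiplicity `m ≥ 1` the expected
dimension holds in every degree different from `dcrit n m`. -/
theorem expDim_all_but_one {n : ℕ} (hn : 10 ≤ n) {m : ℕ} (hm : 1 ≤ m) {L : Type} [Field L] [CharZero L] :
    ∃ F : MvPolynomial (Fin n × Fin 2) ℚ, F ≠ 0 ∧ ∀ (P : Fin n → Fin 2 → L),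
      MvPolynomial.aeval (fun ij : Fin n × Fin 2 => P ij.1 ij.2) F ≠ 0 →
      ∀ d : ℕ, d ≠ dcrit n m → ExpDim L (fun _ => m) P d := by
  obtain ⟨F, hF, hF'⟩ := expDim_uni_win2 (L := L) hn hm
  refine ⟨F, hF, fun P hP d hd => hF' P hP d ?_⟩
  have h1 := window_lt hn
  have h2 : 0 ≤ (√(n : ℝ) * (2 * m + 1) - 3 + min (√(n : ℝ) - 3) (2 / 3 + 1 / (4 * √(n : ℝ)))) / 2 := by
    have hnR : (10 : ℝ) ≤ n := by exact_mod_cast hn
    have h3 : 3 ≤ √(n : ℝ) := Real.le_sqrt_of_sq_le (by linarith)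
    have h4 : 0 ≤ min (√(n : ℝ) - 3) (2 / 3 + 1 / (4 * √(n : ℝ))) := by
      refine le_min (by linarith) (by positivity)
    have h5 : (0 : ℝ) ≤ m := Nat.cast_nonneg m
    have h6 : √(n : ℝ) * 1 ≤ √(n : ℝ) * (2 * m + 1) :=
      mul_le_mul_of_nonneg_left (by linarith) (by linarith)
    linarith
  rcases lt_or_gt_of_ne hd with hlt | hgt
  · left
    have h3 := Nat.floor_le h2
    have h4 : (d : ℝ) + 1 ≤ (dcrit n m : ℝ) := by exact_mod_cast hlt
    unfold dcrit at h4
    linarith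
  · right
    have h3 := Nat.lt_of_floor_lt hgt
    linarith

end Pool.Agent.TH641.NW
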