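import Pool.Agent.TH641.NW.Flat
import Pool.Agent.TH603.Sur.Forms

/-! From the exact rows to the plane: explicit windows. The two transfers from the Tate triangles to the
plane are hypotheses `KeyE`, `KeyS` in this file. -/

namespace Pool.Agent.TH641.NW

open Finset Pool.Agent.TH176.Nag Pool.Agent.TH603.Sur Pool.Agent.TH603.Cut

/-- transfer of emptiness from the Tate triangles to the plane -/
def KeyE : Prop := ∀ (ι : Type) (w : ι → ℕ) (d : ℕ) (τ : ℝ), 0 < τ → τ < 1 →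
  Emp w (Reg (-((d : ℝ) * (1 + τ))) (d * (2 - τ)) (3 * (1 + τ)) (3 * (2 - τ))) → Emp w (TZ d)

/-- transfer of independence from the Tate triangles to the plane -/
def KeyS : Prop := ∀ (ι : Type) [Fintype ι] (w : ι → ℕ) (d : ℕ) (τ : ℝ), 0 < τ → τ < 1 →
  Irrational τ →
  Sur w (Reg (-((d : ℝ) * (1 + τ))) (d * (2 - τ)) (3 * (1 + τ)) (3 * (2 - τ))) → Sur w (TZ d)

/-- the parameter of the Tate triangle -/
theorem exists_tau (K : ℝ) (d : ℕ) : ∃ (v : ℤ) (τ α : ℝ), 0 < τ ∧ τ < 1 ∧ (Irrational K → Irrational τ) ∧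
    Reg (-((d : ℝ) * (1 + τ))) (d * (2 - τ)) (3 * (1 + τ)) (3 * (2 - τ)) =
      Reg α (α + 3 * d) (K - v) (9 - (K - v)) := by
  obtain ⟨v, hv⟩ : ∃ v : ℤ, v = ⌊K⌋ - 4 := ⟨_, rfl⟩
  have h1 := Int.floor_le K
  have h2 := Int.lt_floor_add_one K
  have hvR : (v : ℝ) = ⌊K⌋ - 4 := by rw [hv]; push_cast; ring
  refine ⟨v, (K - v) / 3 - 1, -((d : ℝ) * (1 + ((K - v) / 3 - 1))), by linarith, by linarith, ?_, ?_⟩
  · intro hK
    have e : (K - v) / 3 - 1 = (K - ((v + 3 : ℤ) : ℝ)) / ((3 : ℕ) : ℝ) := by push_cast; ring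
    rw [e]
    exact (hK.sub_intCast _).div_natCast (by norm_num)
  · congr 1
    · ring
    · ring
    · ring

theorem Emp_pl (key : KeyE) {ι : Type} {w : ι → ℕ} {K : ℝ} {d : ℕ} (hK : 0 ≤ K) {n' Z' : ℝ} {σ : ℕ}
    (hσ : (σ : ℝ) + 1 ≤ n') {J : ℕ} {ρ : ℕ → ℝ}
    (hcard : ∀ (x : ℝ) (j : ℕ) (B : Finset ℤ), (∀ c ∈ B, c ∈ U x (3 * d - K * j) K) → (B.card : ℝ) ≤ ρ j)
    (h1 : ∀ j < J, ρ j ≤ Z' - (n' - σ) - n' * j) (h2 : ρ J + σ * J ≤ Z')
    (h3 : ∀ j, J < j → ρ j < 1) (h : Emp w (Cl Z' n')) : Emp w (TZ d) := by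
  obtain ⟨v, τ, α, h4, h5, -, h6⟩ := exists_tau K d
  refine key ι w d τ h4 h5 ?_
  rw [h6]
  exact Emp_T v hK hσ (fun j B hB => hcard _ j B hB) h1 h2 h3 h

theorem Sur_pl (key : KeyS) {ι : Type} [Fintype ι] {w : ι → ℕ} {K : ℝ} {d : ℕ} (hK : 9 ≤ K)
    (hirr : Irrational K) {n' Z' : ℝ}
    (hcard : ∀ (x : ℝ) (j : ℕ), n' * j < Z' → ∃ B : Finset ℤ,
      (∀ c ∈ B, c ∈ U x (3 * d - K * j) K) ∧ Z' - n' * j ≤ (B.card : ℝ))
    (h : Sur w (Op Z' n')) : Sur w (TZ d) := by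
  obtain ⟨v, τ, α, h4, h5, h7, h6⟩ := exists_tau K d
  refine key ι w d τ h4 h5 (h7 hirr) ?_
  rw [h6]
  exact Sur_T v hK (fun j hj => hcard _ j hj) h

theorem ell_row (K : ℝ) (d j : ℝ) :
    ell (3 * d - K * j) K = K / 3 * (d + 3 / 2) - K ^ 2 / 18 - K ^ 2 / 9 * j := by
  unfold ell; ring

/-- independence with a bounded error `e` of the rows -/
theorem Sur_err (key : KeyS) {ι : Type} [Fintype ι] {w : ι → ℕ} {K : ℝ} {d : ℕ} (hK : 9 ≤ K)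
    (hirr : Irrational K) {e Z' : ℝ} (he : 0 ≤ e)
    (hrow : ∀ (x Y : ℝ), 0 ≤ Y → ∃ B : Finset ℤ, (∀ c ∈ B, c ∈ U x Y K) ∧ ell Y K - e ≤ (B.card : ℝ))
    (hZ : Z' + K ^ 2 / 18 + e ≤ K / 3 * (d + 3 / 2))
    (h : Sur w (Op Z' (K ^ 2 / 9))) : Sur w (TZ d) := by
  refine Sur_pl key hK hirr (n' := K ^ 2 / 9) (Z' := Z') ?_ h
  intro x j hj
  have hY : 0 ≤ 3 * (d : ℝ) - K * j := by
    have h1 : K ^ 2 / 9 * j + K ^ 2 / 18 < K / 3 * (d + 3 / 2) := by linarith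
    have h2 : K * (K * j / 9 + K / 18) < K * ((d + 3 / 2) / 3) := by
      have e1 : K * (K * j / 9 + K / 18) = K ^ 2 / 9 * j + K ^ 2 / 18 := by ring
      have e2 : K * (((d : ℝ) + 3 / 2) / 3) = K / 3 * (d + 3 / 2) := by ring
      rw [e1, e2]; exact h1
    have h3 := lt_of_mul_lt_mul_left h2 (by linarith)
    linarith
  obtain ⟨B, hB1, hB2⟩ := hrow x _ hY
  refine ⟨B, hB1, ?_⟩
  rw [ell_row] at hB2
  linarith

/-- emptiness with a bounded error `e` of the rows -/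
theorem Emp_err (key : KeyE) {ι : Type} {w : ι → ℕ} {K : ℝ} {d : ℕ} (hK : 9 ≤ K) {e Z' : ℝ} {σ : ℕ}
    (hσ : (σ : ℝ) + 1 ≤ K ^ 2 / 9) {J : ℕ} (hJ1 : K * J ≤ 3 * d) (hJ2 : 3 * (d : ℝ) < K * (J + 1))
    (hrow : ∀ (x Y : ℝ), K ≤ Y → ∀ B : Finset ℤ, (∀ c ∈ B, c ∈ U x Y K) → (B.card : ℝ) ≤ ell Y K + e)
    (hZ : K / 3 * (d + 3 / 2) + e + (K ^ 2 / 9 - σ) ≤ Z' + K ^ 2 / 18)
    (htop : (3 * d - K * J) ^ 2 / 18 + 11 / 18 * (3 * d - K * J) + 17 / 8 + σ * J ≤ Z')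
    (h : Emp w (Cl Z' (K ^ 2 / 9))) : Emp w (TZ d) := by
  classical
  have hK0 : 0 < K := by linarith
  refine Emp_pl key hK0.le hσ (J := J) (ρ := fun j => if j < J then ell (3 * d - K * j) K + e else
    if j = J then (3 * d - K * J) ^ 2 / 18 + 11 / 18 * (3 * d - K * J) + 17 / 8 else 0) ?_ ?_ ?_ ?_ h
  · intro x j B hB
    split_ifs with h1 h2
    · refine hrow x _ ?_ B hB
      have h3 : (j : ℝ) + 1 ≤ J := by exact_mod_cast h1
      have h4 := mul_le_mul_of_nonneg_left h3 hK0.le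
      linarith
    · subst h2
      exact up_top hK (by linarith) (by linarith) hB
    · have h3 : (J : ℝ) + 1 ≤ j := by exact_mod_cast (by omega : J + 1 ≤ j)
      have h4 := mul_le_mul_of_nonneg_left h3 hK0.le
      have h5 : B = ∅ := by
        rw [Finset.eq_empty_iff_forall_notMem]
        exact fun c hc => U_empty (by linarith) (hB c hc)
      rw [h5]; simp
  · intro j hj
    simp only [if_pos hj]
    rw [ell_row]
    linarith
  · simp only [lt_irrefl, if_false, if_true]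
    exact htop
  · intro j hj
    simp only [if_neg (not_lt.2 hj.le), if_neg (show ¬ j = J by omega)]
    norm_num

end Pool.Agent.TH641.NW
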