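import Pool.Agent.TH641.NW.Cnt

/-! Sharper row bounds: the lengths of all intervals but the first one have the same fractional part. -/

namespace Pool.Agent.TH641.NW

open Finset

/-- upper bound through the gaps -/
theorem NN_up2 {x Y K : ℝ} {h Q : ℕ} (hhQ : h ≤ Q) (hq : Y - 9 * h < K) :
    2 * NN x Y K h Q ≤ 2 * (⌊x + Y + (K - 9) * Q⌋ + 1 - ⌈x⌉) - 9 * ((Q : ℤ) - h) * ((Q : ℤ) - h - 1) := by
  induction Q, hhQ using Nat.le_induction with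
  | base => unfold NN; rw [Ioc_self, sum_empty]; simp
  | succ Q hQ ih =>
    have e : NN x Y K h (Q + 1) = NN x Y K h Q +
        (⌊x + Y + (K - 9) * ((Q + 1 : ℕ) : ℝ)⌋ + 1 - ⌈x + K * ((Q + 1 : ℕ) : ℝ)⌉) := by
      unfold NN
      rw [Finset.sum_Ioc_succ_top hQ]
      ring
    have h1 : ((⌊x + Y + (K - 9) * (Q : ℝ)⌋ + 9 * ((Q : ℤ) - h) : ℤ) : ℝ) <
        ((⌈x + K * ((Q + 1 : ℕ) : ℝ)⌉ : ℤ) : ℝ) := by
      have h2 := Int.floor_le (x + Y + (K - 9) * (Q : ℝ))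
      have h3 := Int.le_ceil (x + K * ((Q + 1 : ℕ) : ℝ))
      push_cast at h3 ⊢
      linarith
    have h2 : ⌊x + Y + (K - 9) * (Q : ℝ)⌋ + 9 * ((Q : ℤ) - h) < ⌈x + K * ((Q + 1 : ℕ) : ℝ)⌉ := by
      exact_mod_cast h1
    rw [e]
    have e2 : 9 * (((Q + 1 : ℕ) : ℤ) - h) * (((Q + 1 : ℕ) : ℤ) - h - 1) =
        9 * ((Q : ℤ) - h) * ((Q : ℤ) - h - 1) + 18 * ((Q : ℤ) - h) := by
      push_cast; ring
    rw [e2]
    linarith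

theorem NN_up3 {x Y K : ℝ} {h Q : ℕ} (hhQ : h ≤ Q) (hq : Y - 9 * h < K) :
    (NN x Y K h Q : ℝ) ≤ Lam Y K h Q + 1 + ((Q : ℝ) - h) * (K - (Y - 9 * h)) := by
  have h1 : (2 : ℝ) * (NN x Y K h Q : ℝ) ≤ 2 * ((⌊x + Y + (K - 9) * Q⌋ : ℝ) + 1 - ⌈x⌉) -
      9 * ((Q : ℝ) - h) * ((Q : ℝ) - h - 1) := by exact_mod_cast NN_up2 (x := x) hhQ hq
  have h2 := floor_ceil_up x (x + Y + (K - 9) * Q)
  push_cast at h2
  rw [Lam_eq hhQ]
  nlinarith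

theorem NN_low2 {x Y K : ℝ} {h Q : ℕ} (hhQ : h ≤ Q) (hQ1 : 9 * (Q : ℝ) ≤ Y) :
    Lam Y K h Q - 1 - ((Q : ℝ) - h) * (Y - 9 * Q) < (NN x Y K h Q : ℝ) := by
  unfold NN Lam
  push_cast
  have h1 := floor_ceil_low x (x + Y + (K - 9) * h)
  push_cast at h1
  have h2 : ∑ s ∈ Ioc h Q, ((Y - 9 * (s : ℝ)) - (Y - 9 * Q)) ≤
      ∑ s ∈ Ioc h Q, ((⌊x + Y + (K - 9) * s⌋ : ℝ) + 1 - ⌈x + K * s⌉) := by
    refine sum_le_sum fun s _ => ?_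
    have h3 := floor_ceil_low (x + K * s) (x + Y + (K - 9) * s)
    have h4 : ((9 * (Q : ℤ) - 9 * s - 1 : ℤ) : ℝ) <
        ((⌊x + Y + (K - 9) * s⌋ + 1 - ⌈x + K * s⌉ : ℤ) : ℝ) := by
      refine lt_of_le_of_lt ?_ h3
      push_cast
      linarith
    have h5 : 9 * (Q : ℤ) - 9 * s - 1 < ⌊x + Y + (K - 9) * s⌋ + 1 - ⌈x + K * s⌉ := by exact_mod_cast h4
    have h6 : 9 * (Q : ℤ) - 9 * s ≤ ⌊x + Y + (K - 9) * s⌋ + 1 - ⌈x + K * s⌉ := by omega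
    have h7 : ((9 * (Q : ℤ) - 9 * s : ℤ) : ℝ) ≤
        ((⌊x + Y + (K - 9) * s⌋ + 1 - ⌈x + K * s⌉ : ℤ) : ℝ) := by exact_mod_cast h6
    push_cast at h7
    linarith
  rw [sum_sub_distrib, sum_const, Nat.card_Ioc, nsmul_eq_mul, Nat.cast_sub hhQ] at h2
  linarith

/-- rows with a full interval, sharper upper bound -/
theorem up_row2 {x Y K : ℝ} (hK : 9 ≤ K) (hY : K ≤ Y) {B : Finset ℤ} (hB : ∀ c ∈ B, c ∈ U x Y K) :
    (B.card : ℝ) ≤ ell Y K + K / 9 + 9 / 8 := by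
  obtain ⟨h, Q, hhQ, hQ1, hQ2, -, h2, h3, -⟩ := exists_hQ hK (by linarith : 0 ≤ Y)
  have h4 := card_le_NN (x := x) hK hhQ hQ1 hQ2 hB
  have h5 : (B.card : ℝ) ≤ (NN x Y K h Q : ℝ) := by exact_mod_cast h4
  have h6 := NN_up (x := x) (Y := Y) (K := K) hhQ
  have h7 := NN_up3 (x := x) (Y := Y) (K := K) hhQ h2
  have h8 := Lam_sub (Y := Y) (K := K) hhQ
  have h3' := h3 hY
  obtain ⟨q, hq⟩ : ∃ q : ℝ, q = K - (Y - 9 * h) := ⟨_, rfl⟩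
  obtain ⟨r, hr⟩ : ∃ r : ℝ, r = Y - 9 * Q := ⟨_, rfl⟩
  obtain ⟨g, hg⟩ : ∃ g : ℝ, g = (Q : ℝ) - h := ⟨_, rfl⟩
  have hKg : K = q + r + 9 * g := by rw [hq, hr, hg]; ring
  have hr0 : 0 ≤ r := by rw [hr]; linarith
  have hr9 : r < 9 := by rw [hr]; linarith
  have hq0 : 0 < q := by rw [hq]; linarith
  have hq9 : q ≤ 9 := by rw [hq]; linarith
  rw [← hq, ← hr] at h8
  have e6 : (Q : ℝ) - h + 1 = g + 1 := by rw [hg]
  rw [e6] at h6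
  rw [← hg, ← hq] at h7
  rcases le_or_gt 1 q with h1q | h1q
  · nlinarith [sq_nonneg (r - 7 / 2), mul_nonneg (sub_nonneg.2 h1q) (by linarith : 0 ≤ 10 - q)]
  · rcases Nat.eq_or_lt_of_le hhQ with he | hlt
    · have hg0 : g = 0 := by rw [hg, he]; ring
      rw [hg0] at h7 hKg
      have : 8 < r := by linarith
      nlinarith
    · have hg1 : 1 ≤ g := by
        have : (h : ℝ) + 1 ≤ Q := by exact_mod_cast hlt
        rw [hg]; linarith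
      nlinarith [sq_nonneg (r - 7 / 2), mul_nonneg (sub_nonneg.2 hg1) (sub_nonneg.2 h1q.le),
        mul_nonneg (sub_nonneg.2 h1q.le) (by linarith : 0 ≤ q + 8)]

/-- all rows, sharper lower bound -/
theorem low_row2 {x Y K : ℝ} (hK : 9 ≤ K) (hY : 0 ≤ Y) :
    ∃ B : Finset ℤ, (∀ c ∈ B, c ∈ U x Y K) ∧ ell Y K - K / 9 - 9 / 8 < (B.card : ℝ) := by
  obtain ⟨h, Q, hhQ, hQ1, hQ2, h1, h2, -, -⟩ := exists_hQ hK hY
  obtain ⟨B, hB, hB2⟩ := exists_NN (x := x) hK hhQ hQ1 h1 h2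
  refine ⟨B, hB, ?_⟩
  have h5 : (B.card : ℝ) = (NN x Y K h Q : ℝ) := by exact_mod_cast hB2
  rw [h5]
  have h6 := NN_low (x := x) (Y := Y) (K := K) hhQ
  have h7 := NN_low2 (x := x) (Y := Y) (K := K) hhQ hQ1
  have h8 := Lam_sub (Y := Y) (K := K) hhQ
  obtain ⟨q, hq⟩ : ∃ q : ℝ, q = K - (Y - 9 * h) := ⟨_, rfl⟩
  obtain ⟨r, hr⟩ : ∃ r : ℝ, r = Y - 9 * Q := ⟨_, rfl⟩
  obtain ⟨g, hg⟩ : ∃ g : ℝ, g = (Q : ℝ) - h := ⟨_, rfl⟩
  have hKg : K = q + r + 9 * g := by rw [hq, hr, hg]; ring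
  have hr0 : 0 ≤ r := by rw [hr]; linarith
  have hr9 : r < 9 := by rw [hr]; linarith
  have hq0 : 0 < q := by rw [hq]; linarith
  rw [← hq, ← hr] at h8
  have e6 : (Q : ℝ) - h + 1 = g + 1 := by rw [hg]
  rw [e6] at h6
  rw [← hg, ← hr] at h7
  rcases le_or_gt 1 r with h1r | h1r
  · nlinarith [sq_nonneg (q - 7 / 2), mul_nonneg (sub_nonneg.2 h1r) (by linarith : 0 ≤ 10 - r)]
  · rcases Nat.eq_or_lt_of_le hhQ with he | hlt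
    · have hg0 : g = 0 := by rw [hg, he]; ring
      rw [hg0] at h7 hKg
      have : 8 < q := by linarith
      nlinarith
    · have hg1 : 1 ≤ g := by
        have : (h : ℝ) + 1 ≤ Q := by exact_mod_cast hlt
        rw [hg]; linarith
      nlinarith [sq_nonneg (q - 7 / 2), mul_nonneg (sub_nonneg.2 hg1) (sub_nonneg.2 h1r.le),
        mul_nonneg (sub_nonneg.2 h1r.le) (by linarith : 0 ≤ r + 8)]

end Pool.Agent.TH641.NW
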